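import Mathlib
import Pool.Agent.R464.DC.Sigma

/-!
# Non-real exponents `c`, `Re c < -1`, for which the closure of `σ_c(ℕ)` is connected
-/

set_option autoImplicit false

namespace Pool.Agent.Results.MP_8a688e_nt.ConnectedClosure

/-- `σ_c(n) = ∑_{d ∣ n} d^c`. -/
noncomputable def sigma (c : ℂ) (n : ℕ) : ℂ := ∑ d ∈ n.divisors, (d : ℂ) ^ c

/-- The closure in `ℂ` of the set of the values `σ_c(n)`, `n ≥ 1`. -/
def closureSet (c : ℂ) : Set ℂ := closure (sigma c '' {n | 1 ≤ n})

/-- The number of the connected components of the closure of `σ_c(ℕ)`. -/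
noncomputable def numComponents (c : ℂ) : ℕ∞ := ENat.card (ConnectedComponents (closureSet c))

theorem result : ∃ t : ℝ, 0 < t ∧ ∃ r₀ : ℝ, 1 < r₀ ∧
    ∀ c : ℂ, c.im = t → -r₀ < c.re → c.re < -1 → numComponents c = 1 := by
  obtain ⟨r₀, h0, h1⟩ := R464.DC.connected
  refine ⟨R464.DC.tt, R464.DC.tt_pos, r₀, h0, fun c hc1 hc2 hc3 => ?_⟩
  have hc : c = R464.DC.cc (-c.re) := by
    apply Complex.ext
    · simp [R464.DC.cc]
    · simp [R464.DC.cc, hc1]
  have h2 := h1 (-c.re) (by linarith) (by linarith)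
  rw [← hc] at h2
  have h3 : closureSet c = closure (R464.DC.sig c '' {n | n ≠ 0}) := by
    unfold closureSet
    congr 2
    ext n
    simp [Nat.one_le_iff_ne_zero]
  rw [← h3] at h2
  haveI : PreconnectedSpace (closureSet c) := Subtype.preconnectedSpace h2
  have h4 : (1 : ℂ) ∈ closureSet c :=
    subset_closure ⟨1, by simp, by simp [sigma]⟩
  haveI : Unique (ConnectedComponents (closureSet c)) :=
    { default := ((⟨1, h4⟩ : closureSet c) : ConnectedComponents (closureSet c))
      uniq := fun x => Subsingleton.elim _ _ }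
  unfold numComponents
  simp

end Pool.Agent.Results.MP_8a688e_nt.ConnectedClosure
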